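import Pool.Agent.H66.XP.TH

/-!
# Exponential time in EQP: row HYX (the large coordinates are replaced by those of the background)
-/

set_option autoImplicit false

namespace Pool.Agent.H32.XP

open Finset Pool.Agent.H66.XP

section hyx

variable {I : Type} [Fintype I] [DecidableEq I] {T : I → Type} [∀ i, Fintype (T i)]

/-- exchange of a coordinate and the variable -/
theorem swap_sum (j : I) (W : (∀ i, T i) → T j → ℝ) :
    ∑ B, ∑ c, W B c = ∑ B : (∀ i, T i), ∑ c, W (Function.update B j c) (B j) := by
  rw [← Finset.sum_product' univ univ W,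
    ← Finset.sum_product' univ univ fun (B : ∀ i, T i) c => W (Function.update B j c) (B j)]
  refine Finset.sum_nbij' (fun x => (Function.update x.1 j x.2, x.1 j))
    (fun x => (Function.update x.1 j x.2, x.1 j)) (fun _ _ => Finset.mem_univ _)
    (fun _ _ => Finset.mem_univ _) ?_ ?_ ?_
  · rintro ⟨P, p⟩ _
    simp
  · rintro ⟨P, p⟩ _
    simp
  · rintro ⟨P, p⟩ _
    simp

theorem avg_sum (j : I) (H : (∀ i, T i) → ℝ) :
    ∑ B : (∀ i, T i), ∑ c, H (Function.update B j c) = Fintype.card (T j) * ∑ B, H B := by
  rw [swap_sum j fun B c => H (Function.update B j c), Finset.mul_sum]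
  refine Finset.sum_congr rfl fun B _ => ?_
  simp

variable {K : I → Type}

open Classical in
/-- the factors of a stage -/
noncomputable def fc (m : ∀ i, Bool → K i → T i → T i → ℝ)
    (b : (∀ i, T i) → (∀ i, T i) → I → Bool) (k : (∀ i, T i) → (∀ i, T i) → ∀ i, K i)
    (s : Finset I) (P B : ∀ i, T i) (i : I) : ℝ :=
  if i ∈ s then (if P i = B i then 1 else 0) else m i (b P B i) (k P B i) (B i) (P i)

/-- the product over the other coordinates -/
noncomputable def rf (m : ∀ i, Bool → K i → T i → T i → ℝ)
    (b : (∀ i, T i) → (∀ i, T i) → I → Bool) (k : (∀ i, T i) → (∀ i, T i) → ∀ i, K i)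
    (s : Finset I) (j : I) (P B : ∀ i, T i) : ℝ := ∏ i ∈ univ.erase j, fc m b k s P B i

/-- the value of a stage -/
noncomputable def fv (m : ∀ i, Bool → K i → T i → T i → ℝ)
    (b : (∀ i, T i) → (∀ i, T i) → I → Bool) (k : (∀ i, T i) → (∀ i, T i) → ∀ i, K i)
    (Φ : (∀ i, T i) → ℝ) (s : Finset I) : ℝ :=
  ∑ B, ∑ P, (∏ i, fc m b k s P B i) * Φ P

variable (m : ∀ i, Bool → K i → T i → T i → ℝ)
    (b : (∀ i, T i) → (∀ i, T i) → I → Bool) (k : (∀ i, T i) → (∀ i, T i) → ∀ i, K i)

theorem fc_nonneg (hm : ∀ i a κ B c, 0 ≤ m i a κ B c) (s : Finset I) (P B : ∀ i, T i) (i : I) :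
    0 ≤ fc m b k s P B i := by
  unfold fc
  split_ifs
  · exact zero_le_one
  · exact le_rfl
  · exact hm _ _ _ _ _

theorem rf_nonneg (hm : ∀ i a κ B c, 0 ≤ m i a κ B c) (s : Finset I) (j : I)
    (P B : ∀ i, T i) : 0 ≤ rf m b k s j P B :=
  Finset.prod_nonneg fun i _ => fc_nonneg m b k hm s P B i

theorem prod_fc (s : Finset I) (j : I) (P B : ∀ i, T i) :
    ∏ i, fc m b k s P B i = fc m b k s P B j * rf m b k s j P B :=
  (Finset.mul_prod_erase univ _ (mem_univ j)).symm

theorem rf_insert (s : Finset I) (j : I) (P B : ∀ i, T i) :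
    rf m b k (insert j s) j P B = rf m b k s j P B := by
  unfold rf
  refine Finset.prod_congr rfl fun i hi => ?_
  have hij : i ≠ j := (Finset.mem_erase.1 hi).1
  unfold fc
  have h : i ∈ insert j s ↔ i ∈ s := by
    rw [Finset.mem_insert]
    exact ⟨fun h => h.resolve_left hij, Or.inr⟩
  simp only [h]

theorem rf_updP (ord : I → ℕ) (h6 : ∀ P B i j p, ord i ≤ ord j →
    b (Function.update P j p) B i = b P B i ∧ k (Function.update P j p) B i = k P B i)
    (s : Finset I) (j : I) (hs : ∀ i, i ∉ s → ord i ≤ ord j) (P B : ∀ i, T i) (c : T j) :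
    rf m b k s j (Function.update P j c) B = rf m b k s j P B := by
  unfold rf
  refine Finset.prod_congr rfl fun i hi => ?_
  have hij : i ≠ j := (Finset.mem_erase.1 hi).1
  unfold fc
  rw [Function.update_of_ne hij]
  by_cases his : i ∈ s
  · rw [if_pos his, if_pos his]
  · rw [if_neg his, if_neg his, (h6 P B i j c (hs i his)).1, (h6 P B i j c (hs i his)).2]

theorem rf_updB (s : Finset I) (j : I) (P B : ∀ i, T i) (c : T j)
    (h : b P (Function.update B j c) = b P B ∧ k P (Function.update B j c) = k P B) :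
    rf m b k s j P (Function.update B j c) = rf m b k s j P B := by
  unfold rf
  refine Finset.prod_congr rfl fun i hi => ?_
  have hij : i ≠ j := (Finset.mem_erase.1 hi).1
  unfold fc
  rw [Function.update_of_ne hij, h.1, h.2]

/-- the masses of the other coordinates -/
theorem rf_mass (hHYM : T_HYM) (ord : I → ℕ) (hm : ∀ i a κ B c, 0 ≤ m i a κ B c)
    (hm1 : ∀ P B i, ∑ c, m i (b P B i) (k P B i) (B i) c ≤ 1)
    (h6 : ∀ P B i j p, ord i ≤ ord j →
    b (Function.update P j p) B i = b P B i ∧ k (Function.update P j p) B i = k P B i)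
    (s : Finset I) (j : I) (hs : ∀ i, i ∉ s → ord i ≤ ord j) (B : ∀ i, T i) :
    ∑ P, rf m b k s j P B ≤ Fintype.card (T j) := by
  classical
  have h1 := (hHYM I T ord (fun P i c => if i ∈ insert j s then (if c = B i then 1 else 0) else
      m i (b P B i) (k P B i) (B i) c) (by
    intro P i c
    split_ifs
    · exact zero_le_one
    · exact le_rfl
    · exact hm _ _ _ _ _) (by
    intro P i
    by_cases hi : i ∈ insert j s
    · simp [hi]
    · simp only [hi, if_false]
      exact hm1 P B i) (by
    intro P i j' p hij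
    funext c
    rw [(h6 P B i j' p hij).1, (h6 P B i j' p hij).2])).1
  have h2 : ∀ P, ∏ i, (if i ∈ insert j s then (if P i = B i then 1 else 0) else
      m i (b P B i) (k P B i) (B i) (P i)) = (if P j = B j then 1 else 0) * rf m b k s j P B := by
    intro P
    have h3 := prod_fc m b k (insert j s) j P B
    rw [rf_insert] at h3
    have h4 : fc m b k (insert j s) P B j = if P j = B j then 1 else 0 := by
      unfold fc
      rw [if_pos (Finset.mem_insert_self j s)]
    rw [h4] at h3
    rw [← h3]
    refine Finset.prod_congr rfl fun i _ => ?_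
    unfold fc
    rfl
  have h5 := avg_sum j fun P => (if P j = B j then (1 : ℝ) else 0) * rf m b k s j P B
  have h6' : ∑ P : (∀ i, T i), ∑ c, ((if Function.update P j c j = B j then (1 : ℝ) else 0) *
      rf m b k s j (Function.update P j c) B) = ∑ P, rf m b k s j P B := by
    refine Finset.sum_congr rfl fun P _ => ?_
    simp only [Function.update_self, rf_updP m b k ord h6 s j hs]
    simp
  rw [← h6', h5]
  have h7 : ∑ P, (if P j = B j then (1 : ℝ) else 0) * rf m b k s j P B ≤ 1 := by
    refine le_trans (le_of_eq ?_) h1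
    exact Finset.sum_congr rfl fun P _ => (h2 P).symm
  have h8 : (0 : ℝ) ≤ Fintype.card (T j) := Nat.cast_nonneg _
  nlinarith

open Classical in
/-- a random coordinate of the background is a random element of its class -/
theorem cls_sum (ag : ∀ i, K i → T i → T i → Prop) (m₀ : ∀ i, K i → T i → T i → ℝ)
    (h3 : ∀ i κ, Equivalence (ag i κ))
    (h4 : ∀ i κ B c, m₀ i κ B c = if ag i κ B c then
      1 / ((univ.filter fun c' => ag i κ B c').card : ℝ) else 0)
    (h7 : ∀ P B j B', ag j (k P B j) (B j) B' →
      b P (Function.update B j B') = b P B ∧ k P (Function.update B j B') = k P B)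
    (s : Finset I) (j : I) (P : ∀ i, T i) (Ψ : T j → ℝ) :
    ∑ B, rf m b k s j P B * ∑ c, m₀ j (k P B j) (B j) c * Ψ c =
      ∑ B, rf m b k s j P B * Ψ (B j) := by
  have h1 := swap_sum j fun B c => rf m b k s j P B * (m₀ j (k P B j) (B j) c * Ψ c)
  have h2 : ∑ B, rf m b k s j P B * ∑ c, m₀ j (k P B j) (B j) c * Ψ c =
      ∑ B, ∑ c, rf m b k s j P B * (m₀ j (k P B j) (B j) c * Ψ c) :=
    Finset.sum_congr rfl fun B _ => Finset.mul_sum _ _ _
  rw [h2, h1]
  refine Finset.sum_congr rfl fun B _ => ?_
  have h5 : ∀ c, rf m b k s j P (Function.update B j c) *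
      (m₀ j (k P (Function.update B j c) j) (Function.update B j c j) (B j) * Ψ (B j)) =
      rf m b k s j P B * Ψ (B j) * m₀ j (k P B j) (B j) c := by
    intro c
    rw [Function.update_self]
    by_cases hc : ag j (k P B j) (B j) c
    · have h6 := h7 P B j c hc
      rw [rf_updB m b k s j P B c h6, h6.2, h4, h4, if_pos hc, if_pos ((h3 _ _).symm hc)]
      have h8 : (univ.filter fun c' => ag j (k P B j) c c') =
          univ.filter fun c' => ag j (k P B j) (B j) c' := by
        ext c'
        simp only [Finset.mem_filter, Finset.mem_univ, true_and]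
        exact ⟨fun h => (h3 _ _).trans hc h, fun h => (h3 _ _).trans ((h3 _ _).symm hc) h⟩
      rw [h8]
      ring
    · have h6 : ¬ ag j (k P (Function.update B j c) j) c (B j) := by
        intro h8
        have h9 := h7 P (Function.update B j c) j (B j) (by rw [Function.update_self]; exact h8)
        rw [Function.update_idem, Function.update_eq_self] at h9
        rw [← h9.2] at h8
        exact hc ((h3 _ _).symm h8)
      rw [h4, h4, if_neg hc, if_neg h6]
      ring
  rw [Finset.sum_congr rfl fun c _ => h5 c, ← Finset.mul_sum]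
  have h8 : ∑ c, m₀ j (k P B j) (B j) c = 1 := by
    simp only [h4]
    rw [← Finset.sum_filter, Finset.sum_const, nsmul_eq_mul]
    have h9 : 0 < (univ.filter fun c' => ag j (k P B j) (B j) c').card :=
      Finset.card_pos.2 ⟨B j, Finset.mem_filter.2 ⟨Finset.mem_univ _, (h3 _ _).refl _⟩⟩
    have h10 : (0 : ℝ) < ((univ.filter fun c' => ag j (k P B j) (B j) c').card : ℝ) := by
      exact_mod_cast h9
    field_simp
  rw [h8, mul_one]

/-- one step -/
theorem fv_step (hHYM : T_HYM) (ord : I → ℕ)
    (m₀ : ∀ i, K i → T i → T i → ℝ) (n : ℕ) (Φ : (∀ i, T i) → ℝ) (η : I → ℝ)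
    (hm : ∀ i a κ B c, 0 ≤ m i a κ B c)
    (hm1 : ∀ P B i, ∑ c, m i (b P B i) (k P B i) (B i) c ≤ 1)
    (hcls : ∀ (s : Finset I) (j : I) (P : ∀ i, T i) (Ψ : T j → ℝ),
      ∑ B, rf m b k s j P B * ∑ c, m₀ j (k P B j) (B j) c * Ψ c =
        ∑ B, rf m b k s j P B * Ψ (B j))
    (h6 : ∀ P B i j p, ord i ≤ ord j →
      b (Function.update P j p) B i = b P B i ∧ k (Function.update P j p) B i = k P B i)
    (hη : ∀ i, 0 ≤ η i)
    (h9 : ∀ P B j, n < ord j → |∑ c, m j (b P B j) (k P B j) (B j) c *
      Φ (Function.update P j c) -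
      ∑ c, m₀ j (k P B j) (B j) c * Φ (Function.update P j c)| ≤ η j)
    (s : Finset I) (j : I) (hjs : j ∉ s) (hj : n < ord j) (hs : ∀ i, i ∉ s → ord i ≤ ord j) :
    |fv m b k Φ s - fv m b k Φ (insert j s)| ≤ Fintype.card (∀ i, T i) * η j := by
  classical
  rcases isEmpty_or_nonempty (T j) with hT | hT
  · have : IsEmpty (∀ i, T i) := ⟨fun f => hT.false (f j)⟩
    unfold fv
    simp
  have hc0 : (0 : ℝ) < Fintype.card (T j) := by exact_mod_cast Fintype.card_pos
  have e1 : ∀ B : (∀ i, T i), Fintype.card (T j) * ∑ P, (∏ i, fc m b k s P B i) * Φ P =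
      ∑ P, rf m b k s j P B * ∑ c, m j (b P B j) (k P B j) (B j) c *
        Φ (Function.update P j c) := by
    intro B
    rw [← avg_sum j fun P => (∏ i, fc m b k s P B i) * Φ P]
    refine Finset.sum_congr rfl fun P _ => ?_
    rw [Finset.mul_sum]
    refine Finset.sum_congr rfl fun c _ => ?_
    rw [prod_fc m b k s j, rf_updP m b k ord h6 s j hs]
    have h10 : fc m b k s (Function.update P j c) B j = m j (b P B j) (k P B j) (B j) c := by
      unfold fc
      rw [if_neg hjs, Function.update_self, (h6 P B j j c le_rfl).1, (h6 P B j j c le_rfl).2]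
    rw [h10]
    ring
  have e2 : ∀ B : (∀ i, T i), Fintype.card (T j) *
      ∑ P, (∏ i, fc m b k (insert j s) P B i) * Φ P =
      ∑ P, rf m b k s j P B * Φ (Function.update P j (B j)) := by
    intro B
    rw [← avg_sum j fun P => (∏ i, fc m b k (insert j s) P B i) * Φ P]
    refine Finset.sum_congr rfl fun P _ => ?_
    have h10 : ∀ c, (∏ i, fc m b k (insert j s) (Function.update P j c) B i) *
        Φ (Function.update P j c) = if c = B j then
          rf m b k s j P B * Φ (Function.update P j c) else 0 := by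
      intro c
      rw [prod_fc m b k (insert j s) j, rf_insert, rf_updP m b k ord h6 s j hs]
      have h11 : fc m b k (insert j s) (Function.update P j c) B j =
          if c = B j then 1 else 0 := by
        unfold fc
        rw [if_pos (Finset.mem_insert_self j s), Function.update_self]
      rw [h11]
      split_ifs
      · ring
      · ring
    rw [Finset.sum_congr rfl fun c _ => h10 c]
    simp
  have e3 : ∑ B : (∀ i, T i), ∑ P, rf m b k s j P B * Φ (Function.update P j (B j)) =
      ∑ B : (∀ i, T i), ∑ P, rf m b k s j P B * ∑ c, m₀ j (k P B j) (B j) c *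
        Φ (Function.update P j c) := by
    rw [Finset.sum_comm, Finset.sum_comm (f := fun B P => rf m b k s j P B *
      ∑ c, m₀ j (k P B j) (B j) c * Φ (Function.update P j c))]
    exact Finset.sum_congr rfl fun P _ => (hcls s j P fun c => Φ (Function.update P j c)).symm
  have e4 : Fintype.card (T j) * (fv m b k Φ s - fv m b k Φ (insert j s)) =
      ∑ B : (∀ i, T i), ∑ P, rf m b k s j P B *
        (∑ c, m j (b P B j) (k P B j) (B j) c * Φ (Function.update P j c) -
          ∑ c, m₀ j (k P B j) (B j) c * Φ (Function.update P j c)) := by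
    unfold fv
    rw [mul_sub, Finset.mul_sum, Finset.mul_sum, Finset.sum_congr rfl fun B _ => e1 B,
      Finset.sum_congr rfl fun B _ => e2 B, e3, ← Finset.sum_sub_distrib]
    refine Finset.sum_congr rfl fun B _ => ?_
    rw [← Finset.sum_sub_distrib]
    exact Finset.sum_congr rfl fun P _ => (mul_sub _ _ _).symm
  have e5 : |Fintype.card (T j) * (fv m b k Φ s - fv m b k Φ (insert j s))| ≤
      Fintype.card (∀ i, T i) * (Fintype.card (T j) * η j) := by
    rw [e4]
    refine (Finset.abs_sum_le_sum_abs _ _).trans ?_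
    have h10 : ∀ B ∈ (univ : Finset (∀ i, T i)), |∑ P, rf m b k s j P B *
        (∑ c, m j (b P B j) (k P B j) (B j) c * Φ (Function.update P j c) -
          ∑ c, m₀ j (k P B j) (B j) c * Φ (Function.update P j c))| ≤
        Fintype.card (T j) * η j := by
      intro B _
      refine (Finset.abs_sum_le_sum_abs _ _).trans ?_
      refine (Finset.sum_le_sum fun P _ => ?_ : _ ≤ ∑ P, rf m b k s j P B * η j).trans ?_
      · rw [abs_mul, abs_of_nonneg (rf_nonneg m b k hm s j P B)]
        exact mul_le_mul_of_nonneg_left (h9 P B j hj) (rf_nonneg m b k hm s j P B)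
      · rw [← Finset.sum_mul]
        exact mul_le_mul_of_nonneg_right (rf_mass m b k hHYM ord hm hm1 h6 s j hs B) (hη j)
    refine (Finset.sum_le_card_nsmul _ _ _ h10).trans ?_
    rw [nsmul_eq_mul, Finset.card_univ]
  rw [abs_mul, abs_of_pos hc0] at e5
  have e6 : Fintype.card (T j) * |fv m b k Φ s - fv m b k Φ (insert j s)| ≤
      Fintype.card (T j) * (Fintype.card (∀ i, T i) * η j) := by
    refine e5.trans (le_of_eq ?_)
    ring
  exact le_of_mul_le_mul_left e6 hc0

end hyx

theorem pf_HYX (hHYM : T_HYM) : T_HYX := by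
  classical
  intro I _ _ T K _ ord m m₀ ag b k n Φ η hm hm1 h3 h4 h5 h6 h7 hη h9
  have hmain : ∀ s : Finset I, (∀ i, i ∉ s → ∀ x ∈ s, ord i ≤ ord x) → (∀ x ∈ s, n < ord x) →
      |fv m b k Φ ∅ - fv m b k Φ s| ≤ Fintype.card (∀ i, T i) * ∑ i ∈ s, η i := by
    intro s
    induction s using Finset.induction_on_min_value ord with
    | empty =>
      intro _ _
      simp
    | insert a s ha hmin ih =>
      intro hcl hn
      have h10 := ih (fun i hi x hx => by
        by_cases hia : i = a
        · rw [hia]
          exact hmin x hx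
        · exact hcl i (by
            rw [Finset.mem_insert, not_or]
            exact ⟨hia, hi⟩) x (Finset.mem_insert_of_mem hx))
        (fun x hx => hn x (Finset.mem_insert_of_mem hx))
      have h11 := fv_step m b k hHYM ord m₀ n Φ η hm hm1
        (fun s j P Ψ => cls_sum m b k ag m₀ h3 h4 h7 s j P Ψ) h6 hη h9 s a ha
        (hn a (Finset.mem_insert_self a s)) (fun i hi => by
          by_cases hia : i = a
          · rw [hia]
          · exact hcl i (by
              rw [Finset.mem_insert, not_or]
              exact ⟨hia, hi⟩) a (Finset.mem_insert_self a s))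
      rw [Finset.sum_insert ha, mul_add]
      have h12 := abs_sub_le (fv m b k Φ ∅) (fv m b k Φ s) (fv m b k Φ (insert a s))
      linarith
  have h10 := hmain (univ.filter fun i => n < ord i) (fun i hi x hx => by
    simp only [Finset.mem_filter, Finset.mem_univ, true_and, not_lt] at hi hx
    exact hi.trans hx.le) (fun x hx => (Finset.mem_filter.1 hx).2)
  have h11 : fv m b k Φ ∅ = ∑ B : (∀ i, T i), ∑ P : (∀ i, T i),
      (∏ i, m i (b P B i) (k P B i) (B i) (P i)) * Φ P := by
    unfold fv
    refine Finset.sum_congr rfl fun B _ => Finset.sum_congr rfl fun P _ => ?_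
    congr 1
  have h12 : fv m b k Φ (univ.filter fun i => n < ord i) =
      ∑ B : (∀ i, T i), ∑ P : (∀ i, T i), (∏ i, if ord i ≤ n then
        m i (b P B i) (k P B i) (B i) (P i) else if P i = B i then 1 else 0) * Φ P := by
    unfold fv
    refine Finset.sum_congr rfl fun B _ => Finset.sum_congr rfl fun P _ => ?_
    congr 1
    refine Finset.prod_congr rfl fun i _ => ?_
    unfold fc
    by_cases hi : ord i ≤ n
    · rw [if_pos hi, if_neg (by simp [hi])]
    · rw [if_neg hi, if_pos (by simpa using hi)]
  rw [← h11, ← h12]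
  exact h10

end Pool.Agent.H32.XP
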